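import Pool.Agent.H77.KG.Targets

/-!
# Row EXA of kgr_modules: definable sets in an extension
-/

set_option autoImplicit false

open Set Pool.Agent.H77.BC Pool.Agent.H77.BD Pool.Agent.H77.KG

namespace Pool.Agent.H53.KGR

/-- codes which agree after composition with `e` -/
private theorem base {M M' : Type} (U : RU M) (U' : RU M') (e : M → M') (h : Ext U U' e)
    {α : Type} [Cod M α] (c' : α → Cod.ι M α → M') (hi : Function.Injective c')
    (hc : ∀ a, c' a = e ∘ Cod.c (M := M) a) :
    @Same M M' U U' α _ ⟨Cod.ι M α, inferInstance, c', hi⟩ := by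
  have key : ∀ X : Set α, c' '' X = (fun x => e ∘ x) '' (Cod.c (M := M) '' X) := by
    intro X
    rw [image_image]
    exact image_congr fun a _ => hc a
  refine @Same.mk M M' U U' α _ ⟨Cod.ι M α, inferInstance, c', hi⟩ (fun X => ?_)
    (fun X hX hn => ?_)
  · change U'.Def (Cod.ι M α) (c' '' X) ↔ _
    rw [key]
    exact h.defn _ _
  · change U'.rk (Cod.ι M α) (c' '' X) = _
    rw [key]
    exact h.rank _ _ hX (hn.image _)

theorem pf_EXA : T_EXA := by
  intro M M' U U' e h α β γ _ _ _
  refine ⟨?_, ?_, ?_, ?_⟩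
  · exact base U U' e h (fun a => e ∘ Cod.c (M := M) a) _ (fun _ => rfl)
  · refine base U U' e h (α := α × β) _ _ (fun p => ?_)
    funext i
    rcases i with i | i <;> rfl
  · refine base U U' e h (α := (α × β) × γ) _ _ (fun p => ?_)
    funext i
    rcases i with (i | i) | i <;> rfl
  · intro k
    refine base U U' e h (α := Fin k → α) _ _ (fun x => ?_)
    rfl

end Pool.Agent.H53.KGR
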