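import Pool.Agent.H77.KG.Targets

/-!
# Row NTR of kgr_modules: transport of the natural action
-/

set_option autoImplicit false

open Set Pool.Agent.H77.BC Pool.Agent.H77.BD Pool.Agent.H77.KG

namespace Pool.Agent.H53.KGR

theorem pf_NTR : T_NTR := by
  intro G S G' S' F _ _ _ _ _ n hN p q hp hq hpq
  obtain ⟨φ, b, h⟩ := hN
  refine ⟨(MulEquiv.ofBijective p hp).trans φ, (Equiv.ofBijective q hq).trans b, ?_⟩
  intro g A hgA x v hv hw hx
  have h1 : φ (p g) = QuotientGroup.mk A := hgA
  have h2 : b (q x) = Projectivization.mk F v hv := hx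
  have h3 := h (p g) A h1 (q x) v hv hw h2
  rw [← hpq] at h3
  exact h3

end Pool.Agent.H53.KGR
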