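import Pool.Agent.H77.KG.Targets

/-!
# Row QMN of kgr_modules: quotient of a definable action
-/

set_option autoImplicit false

open Set Pool.Agent.H77.BC Pool.Agent.H77.BD Pool.Agent.H77.KG

namespace Pool.Agent.H53.KGR

/-- the action on the quotient is definable -/
private theorem core {M : Type} {U : RU M} {G S G' S' : Type} [Group G] [MulAction G S]
    [Group G'] [MulAction G' S'] [Cod M G] [Cod M S] [Cod M G'] [Cod M S'] [DG U G] [Ful U S]
    [DA U G S] [DG U G'] [Ful U S'] (p : G → G') (q : S → S') (sp : Function.Surjective p)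
    (sq : Function.Surjective q) (dp : DFn U p) (dq : DFn U q)
    (eqv : ∀ g x, q (g • x) = p g • q x) : DA U G' S' := by
  refine ⟨?_⟩
  unfold DFn
  have h1 : U.D {z : (G' × S') × S' | ∃ w : G × S, (p w.1 = z.1.1 ∧ q w.2 = z.1.2) ∧
      q (w.1 • w.2) = z.2} := by
    refine D_exists (p := fun (z : (G' × S') × S') (w : G × S) =>
      (p w.1 = z.1.1 ∧ q w.2 = z.1.2) ∧ q (w.1 • w.2) = z.2) ?_
    have k1 : DFn U (fun t : ((G' × S') × S') × (G × S) => t.2.1) := DFn_comp DFn_fst DFn_snd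
    have k2 : DFn U (fun t : ((G' × S') × S') × (G × S) => t.2.2) := DFn_comp DFn_snd DFn_snd
    have k3 : DFn U (fun t : ((G' × S') × S') × (G × S) => t.1.1.1) :=
      DFn_comp (g := fun a : (G' × S') × S' => a.1.1) (DFn_comp DFn_fst DFn_fst) DFn_fst
    have k4 : DFn U (fun t : ((G' × S') × S') × (G × S) => t.1.1.2) :=
      DFn_comp (g := fun a : (G' × S') × S' => a.1.2) (DFn_comp DFn_snd DFn_fst) DFn_fst
    have k5 : DFn U (fun t : ((G' × S') × S') × (G × S) => t.1.2) := DFn_comp DFn_snd DFn_fst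
    exact D_and (D_and (D_eqf (DFn_comp dp k1) k3) (D_eqf (DFn_comp dq k2) k4))
      (D_eqf (DFn_comp dq (DFn_act k1 k2)) k5)
  have e : {z : (G' × S') × S' | z.2 = (fun p : G' × S' => p.1 • p.2) z.1} =
      {z : (G' × S') × S' | ∃ w : G × S, (p w.1 = z.1.1 ∧ q w.2 = z.1.2) ∧
        q (w.1 • w.2) = z.2} := by
    ext z
    constructor
    · intro hz
      have hz' : z.2 = z.1.1 • z.1.2 := hz
      obtain ⟨g, hg⟩ := sp z.1.1
      obtain ⟨x, hx⟩ := sq z.1.2
      refine ⟨(g, x), ⟨hg, hx⟩, ?_⟩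
      rw [eqv, hg, hx, hz']
    · rintro ⟨⟨g, x⟩, ⟨hg, hx⟩, hz⟩
      change z.2 = z.1.1 • z.1.2
      rw [← hz, eqv]
      rw [← hg, ← hx]
  rw [e]
  exact h1

section grp

variable {G S : Type} [Group G] [MulAction G S] (E : Setoid S)
  (hE : ∀ (g : G) (x y : S), E.r x y → E.r (g • x) (g • y))

/-- the action on the classes -/
@[reducible] private def actE : MulAction G (Quotient E) where
  smul g := Quotient.map (fun x => g • x) (fun x y h => hE g x y h)
  one_smul s := by
    induction s using Quotient.inductionOn with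
    | _ x =>
      change Quotient.mk E ((1 : G) • x) = Quotient.mk E x
      rw [one_smul]
  mul_smul g h s := by
    induction s using Quotient.inductionOn with
    | _ x =>
      change Quotient.mk E ((g * h) • x) = Quotient.mk E (g • h • x)
      rw [mul_smul]

/-- the homomorphism to the permutations of the classes -/
private def homE : G →* Equiv.Perm (Quotient E) := @MulAction.toPermHom G (Quotient E) _ (actE E hE)

private theorem homE_mk (g : G) (x : S) : homE E hE g (Quotient.mk E x) = Quotient.mk E (g • x) :=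
  rfl

private theorem mem_ker (g : G) : g ∈ (homE E hE).ker ↔ ∀ x, E.r (g • x) x := by
  rw [MonoidHom.mem_ker]
  constructor
  · intro h x
    have h1 : homE E hE g (Quotient.mk E x) = Quotient.mk E x := by rw [h]; rfl
    rw [homE_mk] at h1
    exact Quotient.exact h1
  · intro h
    ext s
    induction s using Quotient.inductionOn with
    | _ x =>
      rw [homE_mk]
      exact Quotient.sound (h x)

end grp

/-- everything after the choice of the universes -/
private theorem fin2 {M : Type} {U : RU M} {G S : Type} [Group G] [MulAction G S] [Cod M G]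
    [Cod M S] [DG U G] [Ful U S] [DA U G S] (E : Setoid S)
    (hE : ∀ (g : G) (x y : S), E.r x y → E.r (g • x) (g • y)) (cS : Cod M (Quotient E))
    (fS : Ful U (Quotient E)) (dq : DFn U (fun a => Quotient.mk E a))
    (cG : Cod M (G ⧸ (homE E hE).ker)) (dG : DG U (G ⧸ (homE E hE).ker))
    (dp : DFn U (fun g : G => (g : G ⧸ (homE E hE).ker))) :
    ∃ (G' S' : Type) (_ : Group G') (_ : MulAction G' S') (_ : Cod M G') (_ : Cod M S')
      (p : G →* G') (q : S → S'), DG U G' ∧ Ful U S' ∧ DA U G' S' ∧ FaithfulSMul G' S' ∧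
        Qt U p q ∧ ∀ x y, q x = q y ↔ E.r x y := by
  let ψ : (G ⧸ (homE E hE).ker) →* Equiv.Perm (Quotient E) := QuotientGroup.kerLift (homE E hE)
  letI act : MulAction (G ⧸ (homE E hE).ker) (Quotient E) := MulAction.compHom (Quotient E) ψ
  have eqv : ∀ (g : G) (x : S), Quotient.mk E (g • x) =
      (g : G ⧸ (homE E hE).ker) • Quotient.mk E x := by
    intro g x
    rfl
  refine ⟨G ⧸ (homE E hE).ker, Quotient E, inferInstance, act, cG, cS,
    QuotientGroup.mk' (homE E hE).ker, fun a => Quotient.mk E a, dG, fS, ?_, ?_, ?_, ?_⟩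
  · exact core (fun g : G => (g : G ⧸ (homE E hE).ker)) (fun a => Quotient.mk E a)
      (QuotientGroup.mk_surjective) (Quotient.mk_surjective) dp dq eqv
  · refine ⟨fun {a b} hab => ?_⟩
    apply QuotientGroup.kerLift_injective (homE E hE)
    ext s
    exact hab s
  · exact ⟨QuotientGroup.mk_surjective, Quotient.mk_surjective, dp, dq, eqv⟩
  · intro x y
    exact ⟨fun h => Quotient.exact h, fun h => Quotient.sound h⟩

theorem pf_QMN (hQTY : T_QTY) (hQGP : T_QGP) (hEXA : T_EXA) (hEXB : T_EXB) (hEXC : T_EXC) :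
    T_QMN := by
  intro C hC M U hU G S _ _ _ _ _ _ _ E hED hE
  obtain ⟨M1, U1, e1, h1, c1, hC1, f1, d1⟩ := hQTY C hC U hU E hED
  letI cG1 : Cod M1 G := codE h1.inj
  letI cS1 : Cod M1 S := codE h1.inj
  obtain ⟨b1, b2, b3, b4, b5⟩ := hEXB U U1 e1 h1
  have dG1 : DG U1 G := b3
  have fS1 : Ful U1 S := b1
  have dA1 : DA U1 G S := b5
  -- the kernel
  have hK : U.D ((homE E hE).ker : Set G) := by
    have h : U.D {g : G | ∀ x : S, E.r (g • x) x} := by
      refine D_forall (p := fun (g : G) (x : S) => E.r (g • x) x) ?_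
      exact D_subst (p := fun z : S × S => E.r z.1 z.2) hED
        (f := fun z : G × S => (z.1 • z.2, z.2)) (DFn_pair (DFn_act DFn_fst DFn_snd) DFn_snd)
    have e : ((homE E hE).ker : Set G) = {g : G | ∀ x : S, E.r (g • x) x} := by
      ext g
      exact mem_ker E hE g
    rw [e]
    exact h
  have hK1 : U1.D ((homE E hE).ker : Set G) :=
    ((@hEXA M M1 U U1 e1 h1 G G G _ _ _).1.D _).2 hK
  obtain ⟨M2, U2, e2, h2, c2, hC2, dG2', d2⟩ := hQGP C hC U1 hC1 (homE E hE).ker hK1
  have h := hEXC U U1 U2 e1 e2 h1 h2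
  letI cG2 : Cod M2 G := codE h.inj
  letI cS2 : Cod M2 S := codE h.inj
  obtain ⟨a1, a2, a3, a4, a5⟩ := hEXB U U2 (e2 ∘ e1) h
  have dG2 : DG U2 G := a3
  have fS2 : Ful U2 S := a1
  have dA2 : DA U2 G S := a5
  obtain ⟨g1, g2, g3, g4, g5⟩ := hEXB U1 U2 e2 h2
  have fQ : @Ful M2 U2 (Quotient E) (codE h2.inj) := g1
  have dq : @DFn M2 U2 S (Quotient E) cS2 (codE h2.inj) (fun a => Quotient.mk E a) := g2 _ d1
  obtain ⟨G', S', iG, iA, cG, cS, p, q, r1, r2, r3, r4, r5, r6⟩ :=
    fin2 (U := U2) E hE (codE h2.inj) fQ dq c2 dG2' d2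
  exact ⟨M2, U2, e2 ∘ e1, h, G', S', iG, iA, cG, cS, p, q, hC2, r1, r2, r3, r4, r5, r6⟩

end Pool.Agent.H53.KGR
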